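import Pool.Agent.R590.RmCount
import Pool.Agent.R590.RmTower

/-!
# MP_24eb62_lc: the cardinality of the Stone–Čech remainder of `ω* \ {x}` can depend on the point `x`

`OmegaStar` is the space of the free ultrafilters on `ℕ`, `Minus x` its subspace `ω* \ {x}` and `R x`
the Stone–Čech remainder of `Minus x`. The two hypotheses of the last clause of `result` (there is a
free ultrafilter generated by a tower of length `ω₁`; there is a dominating family `D` with
`2 ^ #D < 2 ^ 𝔠`) hold together in the Sacks model (countable support iteration of length `ω₂` of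
Sacks forcing over a model of GCH).
-/

set_option autoImplicit false

namespace Pool.Agent.Results.MP_24eb62_lc.DifferentRemainders

open Cardinal Pool.Agent.R590.Rm

/-- 1. If `x` is generated by a tower of length `ω₁` then the remainder of `ω* \ {x}` has at least two
points. 2. If some dominating family `D` has `2 ^ #D < 2 ^ 𝔠` then there are `2 ^ 𝔠` points `y` of
`ω*` such that the remainder of `ω* \ {y}` has exactly one point. 3. So if both a point as in 1 and a
family as in 2 exist then there are points `x` and `y` with `#(R x) ≠ #(R y)`. -/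
theorem result :
    (∀ x : OmegaStar, TowerPoint x → 2 ≤ #(R x)) ∧
    (∀ D : Set (ℕ → ℕ), Dominating D → (2 : Cardinal.{0}) ^ #D < 2 ^ 𝔠 →
      #{y : OmegaStar // #(R y) = 1} = 2 ^ 𝔠) ∧
    ((∃ x : OmegaStar, TowerPoint x) →
      (∃ D : Set (ℕ → ℕ), Dominating D ∧ (2 : Cardinal.{0}) ^ #D < 2 ^ 𝔠) →
      ∃ x y : OmegaStar, #(R x) ≠ #(R y)) := by
  have h1 : ∀ x : OmegaStar, TowerPoint x → 2 ≤ #(R x) := by
    intro x hx
    obtain ⟨p, hp, q, hq, hne⟩ := towerPoint_two hx
    rw [Cardinal.two_le_iff]
    exact ⟨⟨p, hp⟩, ⟨q, hq⟩, fun h => hne (congrArg Subtype.val h)⟩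
  refine ⟨h1, fun D hD hc => card_one hD hc, ?_⟩
  rintro ⟨x, hx⟩ ⟨D, hD, hc⟩
  have h2 := card_one hD hc
  have h3 : #{y : OmegaStar // #(R y) = 1} ≠ 0 := by
    rw [h2]
    exact (Cardinal.power_pos _ two_pos).ne'
  obtain ⟨⟨y, hy⟩⟩ := Cardinal.mk_ne_zero_iff.1 h3
  refine ⟨x, y, fun h => ?_⟩
  have h4 := h1 x hx
  rw [h, hy] at h4
  exact absurd h4 (by norm_num)

end Pool.Agent.Results.MP_24eb62_lc.DifferentRemainders
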